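import Mathlib

set_option autoImplicit false

open Set Metric

namespace Pool.Agent.Results.MP_4b3b27_co.SquareTiling

/-- The Euclidean plane. -/
abbrev Plane := EuclideanSpace ℝ (Fin 2)

/-- `p` is a closed polygon whose sides meet only at vertices: `p` is compact with nonempty
interior, and its boundary is a closed polygonal line `v_0 v_1 ... v_{n-1} v_0`, `n = m + 3 ≥ 3`,
with distinct vertices, any two different sides of which meet only at common end points. -/
def IsPolygon (p : Set Plane) : Prop :=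
  ∃ (m : ℕ) (v : Fin (m + 3) → Plane),
    Function.Injective v ∧
    (∀ i j : Fin (m + 3), i ≠ j →
      segment ℝ (v i) (v (i + 1)) ∩ segment ℝ (v j) (v (j + 1)) ⊆
        {v i, v (i + 1)} ∩ {v j, v (j + 1)}) ∧
    IsCompact p ∧ (interior p).Nonempty ∧
    frontier p = ⋃ i : Fin (m + 3), segment ℝ (v i) (v (i + 1))

/-- Two sets are congruent: an isometry of the plane maps one onto the other. -/
def Congruent (s t : Set Plane) : Prop := ∃ g : Plane ≃ᵢ Plane, g '' s = t

/-- Two sets are similar: a similitude of the plane maps one onto the other. -/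
def Similar (s t : Set Plane) : Prop := ∃ g : Plane ≃ᵈ Plane, g '' s = t

/-- `T` is a tiling of the plane: a set of compact sets whose union is the plane, any two of which
meet only in boundary points. -/
structure IsTiling (T : Set (Set Plane)) : Prop where
  compact : ∀ t ∈ T, IsCompact t
  cover : ⋃₀ T = univ
  meet : ∀ t ∈ T, ∀ t' ∈ T, t ≠ t' → t ∩ t' ⊆ frontier t ∩ frontier t'

/-- `T` has finite order: up to congruence there are finitely many tiles. -/
def FiniteOrder (T : Set (Set Plane)) : Prop :=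
  ∃ P : Set (Set Plane), P.Finite ∧ ∀ t ∈ T, ∃ q ∈ P, Congruent q t

/-- `U` is a patch of `T`: a subset of `T` whose union is a topological disk. -/
def IsPatch (T U : Set (Set Plane)) : Prop :=
  U ⊆ T ∧ Nonempty (↥(⋃₀ U) ≃ₜ ↥(closedBall (0 : Plane) 1))

/-- `T` is quasiperiodic: for every patch `U` there is `R > 0` such that each disk of radius `R`
contains a patch congruent to `U`. -/
def Quasiperiodic (T : Set (Set Plane)) : Prop :=
  ∀ U : Set (Set Plane), IsPatch T U → ∃ R : ℝ, 0 < R ∧ ∀ x : Plane,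
    ∃ V : Set (Set Plane), IsPatch T V ∧
      (∃ g : Plane ≃ᵢ Plane, V = (fun t : Set Plane => g '' t) '' U) ∧ ⋃₀ V ⊆ closedBall x R

/-- `T` is self-similar: some similitude `φ` of ratio `> 1` sends every tile to a union of tiles. -/
def SelfSimilar (T : Set (Set Plane)) : Prop :=
  ∃ φ : Plane ≃ᵈ Plane, 1 < Dilation.ratio φ ∧ ∀ t ∈ T, ∃ S : Set (Set Plane), S ⊆ T ∧
    φ '' t = ⋃₀ S

/-- A self-similar polygonal tiling: a self-similar, quasiperiodic tiling of the plane of finite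
order whose tiles are polygons, any two of which are similar. -/
structure IsSelfSimilarPolygonalTiling (T : Set (Set Plane)) : Prop where
  tiling : IsTiling T
  finiteOrder : FiniteOrder T
  quasiperiodic : Quasiperiodic T
  selfSimilar : SelfSimilar T
  polygon : ∀ t ∈ T, IsPolygon t
  similar : ∀ t ∈ T, ∀ t' ∈ T, Similar t t'

/-- `(p, F)` is a generating pair, with `F = {f_1, ..., f_N}`, ratios `r_n = s ^ (a_n)`:
`p` is a polygon, `N ≥ 2`, `p` is the union of the `f_n(p)`, which meet only in boundary points,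
`0 < s < 1`, and the `a_n` are positive integers with greatest common divisor `1`. -/
structure IsGeneratingPair {N : ℕ} (p : Set Plane) (F : Fin N → (Plane ≃ᵈ Plane)) (s : ℝ)
    (a : Fin N → ℕ) : Prop where
  two_le : 2 ≤ N
  polygon : IsPolygon p
  union : p = ⋃ n, F n '' p
  meet : ∀ m n, m ≠ n → F m '' p ∩ F n '' p ⊆ frontier (F m '' p) ∩ frontier (F n '' p)
  s_pos : 0 < s
  s_lt_one : s < 1
  a_pos : ∀ n, 0 < a n
  ratio : ∀ n, (Dilation.ratio (F n) : ℝ) = s ^ a n
  gcd : Finset.univ.gcd a = 1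

/-- `e(σ)`, the sum of the `a_{σ_i}`. -/
def weight {N : ℕ} (a : Fin N → ℕ) (σ : List (Fin N)) : ℕ := (σ.map a).sum

/-- `e⁻(σ)`, the same sum without the last letter of `σ`. -/
def weightInit {N : ℕ} (a : Fin N → ℕ) (σ : List (Fin N)) : ℕ := (σ.dropLast.map a).sum

/-- `f_σ = f_{σ_1} ∘ ... ∘ f_{σ_k}` -/
noncomputable def forward {N : ℕ} (F : Fin N → (Plane ≃ᵈ Plane)) (σ : List (Fin N)) :
    Plane ≃ᵈ Plane := (σ.map F).prod

/-- `f_{-σ} = f_{σ_1}⁻¹ ∘ ... ∘ f_{σ_k}⁻¹` -/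
noncomputable def backward {N : ℕ} (F : Fin N → (Plane ≃ᵈ Plane)) (σ : List (Fin N)) :
    Plane ≃ᵈ Plane := (σ.map fun n => (F n)⁻¹).prod

/-- `θ|k`, the prefix of length `k` of the infinite string `θ`. -/
def truncate {N : ℕ} (θ : ℕ → Fin N) (k : ℕ) : List (Fin N) := (List.range k).map θ

/-- `T(θ,k) = {f_{-(θ|k)} ∘ f_σ (p) : e(σ) ≥ e(θ|k) > e⁻(σ)}` -/
def stage {N : ℕ} (p : Set Plane) (F : Fin N → (Plane ≃ᵈ Plane)) (a : Fin N → ℕ)
    (θ : ℕ → Fin N) (k : ℕ) : Set (Set Plane) :=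
  {t | ∃ σ : List (Fin N), weight a σ ≥ weight a (truncate θ k) ∧
    weight a (truncate θ k) > weightInit a σ ∧
    t = (fun x => backward F (truncate θ k) (forward F σ x)) '' p}

/-- `T(p, F, θ)`, the union of the `T(θ,k)`, `k ≥ 1`. -/
def generatedTiling {N : ℕ} (p : Set Plane) (F : Fin N → (Plane ≃ᵈ Plane)) (a : Fin N → ℕ)
    (θ : ℕ → Fin N) : Set (Set Plane) :=
  {t | ∃ k : ℕ, 1 ≤ k ∧ t ∈ stage p F a θ k}

/-! ### Squares -/

/-- the axis-parallel square with lower left corner `(x, y)` and side `r` -/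
def sq (x y r : ℝ) : Set Plane := {z | (x ≤ z 0 ∧ z 0 ≤ x + r) ∧ (y ≤ z 1 ∧ z 1 ≤ y + r)}

/-- open square -/
def osq (x y r : ℝ) : Set Plane := {z | (x < z 0 ∧ z 0 < x + r) ∧ (y < z 1 ∧ z 1 < y + r)}

noncomputable def pt (x y : ℝ) : Plane := !₂[x, y]

@[simp] lemma pt_zero (x y : ℝ) : pt x y 0 = x := by simp [pt]
@[simp] lemma pt_one (x y : ℝ) : pt x y 1 = y := by simp [pt]

lemma ext_iff' {z w : Plane} : z = w ↔ z 0 = w 0 ∧ z 1 = w 1 := by
  constructor
  · rintro rfl; exact ⟨rfl, rfl⟩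
  · rintro ⟨h0, h1⟩
    ext i
    fin_cases i
    · exact h0
    · exact h1

lemma continuous_coord (i : Fin 2) : Continuous (fun z : Plane => z i) := by fun_prop

lemma isClosed_sq (x y r : ℝ) : IsClosed (sq x y r) := by
  unfold sq
  have h0 := continuous_coord 0
  have h1 := continuous_coord 1
  exact ((isClosed_le continuous_const h0).inter (isClosed_le h0 continuous_const)).inter
    ((isClosed_le continuous_const h1).inter (isClosed_le h1 continuous_const))

lemma isOpen_osq (x y r : ℝ) : IsOpen (osq x y r) := by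
  unfold osq
  have h0 := continuous_coord 0
  have h1 := continuous_coord 1
  exact ((isOpen_lt continuous_const h0).inter (isOpen_lt h0 continuous_const)).inter
    ((isOpen_lt continuous_const h1).inter (isOpen_lt h1 continuous_const))

lemma dist_le_of_coord {z w : Plane} {d : ℝ} (h0 : |z 0 - w 0| ≤ d) (h1 : |z 1 - w 1| ≤ d) :
    dist z w ≤ 2 * d := by
  have hd : 0 ≤ d := (abs_nonneg _).trans h0
  rw [EuclideanSpace.dist_eq, Real.sqrt_le_iff]
  refine ⟨by linarith, ?_⟩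
  simp only [Fin.sum_univ_two, Real.dist_eq, sq_abs]
  have e0 := sq_le_sq' (abs_le.mp h0).1 (abs_le.mp h0).2
  have e1 := sq_le_sq' (abs_le.mp h1).1 (abs_le.mp h1).2
  nlinarith

lemma dist_le_of_coord' {z w : Plane} {d : ℝ} (h0 : |z 0 - w 0| ≤ d) (h1 : |z 1 - w 1| ≤ d) :
    dist z w ≤ 3 / 2 * d := by
  have hd : 0 ≤ d := (abs_nonneg _).trans h0
  rw [EuclideanSpace.dist_eq, Real.sqrt_le_iff]
  refine ⟨by linarith, ?_⟩
  simp only [Fin.sum_univ_two, Real.dist_eq, sq_abs]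
  have e0 := sq_le_sq' (abs_le.mp h0).1 (abs_le.mp h0).2
  have e1 := sq_le_sq' (abs_le.mp h1).1 (abs_le.mp h1).2
  nlinarith

lemma abs_coord_le_dist (z w : Plane) (i : Fin 2) : |z i - w i| ≤ dist z w := by
  rw [EuclideanSpace.dist_eq]
  apply Real.le_sqrt_of_sq_le
  simp only [Fin.sum_univ_two, Real.dist_eq, sq_abs]
  fin_cases i
  · simp only [Fin.zero_eta]
    nlinarith [sq_nonneg (z 1 - w 1)]
  · simp only [Fin.mk_one]
    nlinarith [sq_nonneg (z 0 - w 0)]

lemma isBounded_sq (x y r : ℝ) : Bornology.IsBounded (sq x y r) := by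
  rw [Metric.isBounded_iff]
  refine ⟨2 * |r|, ?_⟩
  rintro z ⟨⟨h1, h2⟩, h3, h4⟩ w ⟨⟨h5, h6⟩, h7, h8⟩
  have hr : 0 ≤ r := by linarith
  rw [abs_of_nonneg hr]
  apply dist_le_of_coord <;> rw [abs_le] <;> constructor <;> linarith

lemma isCompact_sq (x y r : ℝ) : IsCompact (sq x y r) :=
  Metric.isCompact_of_isClosed_isBounded (isClosed_sq x y r) (isBounded_sq x y r)

lemma interior_sq (x y r : ℝ) : interior (sq x y r) = osq x y r := by
  apply Subset.antisymm
  · intro z hz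
    rw [mem_interior_iff_mem_nhds, Metric.mem_nhds_iff] at hz
    obtain ⟨ε, hε, hb⟩ := hz
    have key : ∀ c d : ℝ, |c| ≤ ε / 4 → |d| ≤ ε / 4 → pt (z 0 + c) (z 1 + d) ∈ sq x y r := by
      intro c d hc hd
      apply hb
      rw [Metric.mem_ball]
      have : dist (pt (z 0 + c) (z 1 + d)) z ≤ 2 * (ε / 4) := by
        apply dist_le_of_coord
        · simpa using hc
        · simpa using hd
      linarith
    have hε4 : |ε / 4| ≤ ε / 4 := by rw [abs_of_pos]; linarith
    have hε4' : |-(ε / 4)| ≤ ε / 4 := by rw [abs_neg]; exact hε4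
    obtain ⟨⟨h1, h2⟩, h3, h4⟩ := key (ε / 4) (ε / 4) hε4 hε4
    obtain ⟨⟨h5, h6⟩, h7, h8⟩ := key (-(ε / 4)) (-(ε / 4)) hε4' hε4'
    simp only [pt_zero, pt_one] at *
    exact ⟨⟨by linarith, by linarith⟩, by linarith, by linarith⟩
  · apply interior_maximal _ (isOpen_osq x y r)
    rintro z ⟨⟨h1, h2⟩, h3, h4⟩
    exact ⟨⟨h1.le, h2.le⟩, h3.le, h4.le⟩

lemma frontier_sq (x y r : ℝ) : frontier (sq x y r) = sq x y r \ osq x y r := by
  rw [(isClosed_sq x y r).frontier_eq, interior_sq]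

lemma mem_closure_osq {x y r : ℝ} (hr : 0 < r) : sq x y r ⊆ closure (osq x y r) := by
  intro z hz
  obtain ⟨⟨h1, h2⟩, h3, h4⟩ := hz
  rw [Metric.mem_closure_iff]
  intro ε hε
  -- move towards the centre
  set c : Plane := pt (x + r / 2) (y + r / 2) with hc
  obtain ⟨δ, hδ0, hδ1, hδ⟩ : ∃ δ : ℝ, 0 < δ ∧ δ < 1 ∧ 2 * (δ * r) < ε := by
    refine ⟨min (1 / 2) (ε / (4 * r)), by positivity, ?_, ?_⟩
    · exact (min_le_left _ _).trans_lt (by norm_num)
    · have : min (1 / 2) (ε / (4 * r)) ≤ ε / (4 * r) := min_le_right _ _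
      have h5 : min (1 / 2) (ε / (4 * r)) * r ≤ ε / (4 * r) * r :=
        mul_le_mul_of_nonneg_right this hr.le
      have h6 : ε / (4 * r) * r = ε / 4 := by field_simp
      rw [h6] at h5
      linarith
  refine ⟨pt (z 0 + δ * (x + r / 2 - z 0)) (z 1 + δ * (y + r / 2 - z 1)), ?_, ?_⟩
  · refine ⟨⟨?_, ?_⟩, ?_, ?_⟩ <;> simp only [pt_zero, pt_one] <;> nlinarith [mul_pos hδ0 hr]
  · rw [dist_comm]
    refine lt_of_le_of_lt (dist_le_of_coord (d := δ * r) ?_ ?_) hδ
    · simp only [pt_zero, add_sub_cancel_left]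
      rw [abs_mul, abs_of_pos hδ0]
      apply mul_le_mul_of_nonneg_left _ hδ0.le
      rw [abs_le]; constructor <;> linarith
    · simp only [pt_one, add_sub_cancel_left]
      rw [abs_mul, abs_of_pos hδ0]
      apply mul_le_mul_of_nonneg_left _ hδ0.le
      rw [abs_le]; constructor <;> linarith

lemma osq_nonempty {x y r : ℝ} (hr : 0 < r) : (osq x y r).Nonempty :=
  ⟨pt (x + r / 2) (y + r / 2), by
    refine ⟨⟨?_, ?_⟩, ?_, ?_⟩ <;> simp only [pt_zero, pt_one] <;> linarith⟩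

/-! horizontal and vertical segments -/

lemma segment_horiz {x x' y : ℝ} (h : x ≤ x') :
    segment ℝ (pt x y) (pt x' y) = {z | z 1 = y ∧ x ≤ z 0 ∧ z 0 ≤ x'} := by
  ext z
  constructor
  · rintro ⟨a, b, ha, hb, hab, rfl⟩
    simp only [mem_ofPred_eq, PiLp.add_apply, PiLp.smul_apply, pt_zero, pt_one, smul_eq_mul]
    obtain rfl : a = 1 - b := by linarith
    refine ⟨by ring, ?_, ?_⟩ <;> nlinarith
  · rintro ⟨h1, h2, h3⟩
    rcases h.eq_or_lt with heq | hlt
    · subst heq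
      rw [segment_same]
      have : z 0 = x := le_antisymm h3 h2
      rw [mem_singleton_iff, ext_iff']
      simp [h1, this]
    · refine ⟨(x' - z 0) / (x' - x), (z 0 - x) / (x' - x), ?_, ?_, ?_, ?_⟩
      · apply div_nonneg <;> linarith
      · apply div_nonneg <;> linarith
      · have : x' - x ≠ 0 := by linarith
        field_simp; ring
      · rw [ext_iff']
        have : x' - x ≠ 0 := by linarith
        simp only [PiLp.add_apply, PiLp.smul_apply, pt_zero, pt_one, smul_eq_mul]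
        constructor
        · field_simp; ring
        · rw [h1]; field_simp; ring

lemma segment_vert {x y y' : ℝ} (h : y ≤ y') :
    segment ℝ (pt x y) (pt x y') = {z | z 0 = x ∧ y ≤ z 1 ∧ z 1 ≤ y'} := by
  ext z
  constructor
  · rintro ⟨a, b, ha, hb, hab, rfl⟩
    simp only [mem_ofPred_eq, PiLp.add_apply, PiLp.smul_apply, pt_zero, pt_one, smul_eq_mul]
    obtain rfl : a = 1 - b := by linarith
    refine ⟨by ring, ?_, ?_⟩ <;> nlinarith
  · rintro ⟨h1, h2, h3⟩
    rcases h.eq_or_lt with heq | hlt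
    · subst heq
      rw [segment_same]
      have : z 1 = y := le_antisymm h3 h2
      rw [mem_singleton_iff, ext_iff']
      simp [h1, this]
    · refine ⟨(y' - z 1) / (y' - y), (z 1 - y) / (y' - y), ?_, ?_, ?_, ?_⟩
      · apply div_nonneg <;> linarith
      · apply div_nonneg <;> linarith
      · have : y' - y ≠ 0 := by linarith
        field_simp; ring
      · rw [ext_iff']
        have : y' - y ≠ 0 := by linarith
        simp only [PiLp.add_apply, PiLp.smul_apply, pt_zero, pt_one, smul_eq_mul]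
        constructor
        · rw [h1]; field_simp; ring
        · field_simp; ring

/-- the vertices of a square -/
noncomputable def sqv (x y r : ℝ) : Fin (1 + 3) → Plane :=
  ![pt x y, pt (x + r) y, pt (x + r) (y + r), pt x (y + r)]

lemma isPolygon_sq {x y r : ℝ} (hr : 0 < r) : IsPolygon (sq x y r) := by
  have hx : x ≤ x + r := by linarith
  have hy : y ≤ y + r := by linarith
  have s0 : segment ℝ (sqv x y r 0) (sqv x y r (0 + 1)) = {z | z 1 = y ∧ x ≤ z 0 ∧ z 0 ≤ x + r} :=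
    segment_horiz hx
  have s1 : segment ℝ (sqv x y r 1) (sqv x y r (1 + 1)) =
      {z | z 0 = x + r ∧ y ≤ z 1 ∧ z 1 ≤ y + r} := segment_vert hy
  have s2 : segment ℝ (sqv x y r 2) (sqv x y r (2 + 1)) =
      {z | z 1 = y + r ∧ x ≤ z 0 ∧ z 0 ≤ x + r} := by
    rw [segment_symm]; exact segment_horiz hx
  have s3 : segment ℝ (sqv x y r 3) (sqv x y r (3 + 1)) =
      {z | z 0 = x ∧ y ≤ z 1 ∧ z 1 ≤ y + r} := by
    rw [segment_symm]; exact segment_vert hy
  have v0 : sqv x y r 0 = pt x y := rfl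
  have v1 : sqv x y r 1 = pt (x + r) y := rfl
  have v2 : sqv x y r 2 = pt (x + r) (y + r) := rfl
  have v3 : sqv x y r 3 = pt x (y + r) := rfl
  have v01 : sqv x y r (0 + 1) = pt (x + r) y := rfl
  have v11 : sqv x y r (1 + 1) = pt (x + r) (y + r) := rfl
  have v21 : sqv x y r (2 + 1) = pt x (y + r) := rfl
  have v31 : sqv x y r (3 + 1) = pt x y := rfl
  refine ⟨1, sqv x y r, ?_, ?_, isCompact_sq x y r, ?_, ?_⟩
  · intro i j hij
    have h0 := (ext_iff'.mp hij).1
    have h1 := (ext_iff'.mp hij).2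
    fin_cases i <;> fin_cases j <;>
      simp [sqv] at h0 h1 ⊢ <;> linarith
  · intro i j hij z hz
    obtain ⟨hz1, hz2⟩ := hz
    fin_cases i <;> fin_cases j <;>
      simp only [Fin.zero_eta, Fin.mk_one, Fin.reduceFinMk, s0, s1, s2, s3, mem_ofPred_eq] at hz1 hz2 <;>
      simp only [Fin.zero_eta, Fin.mk_one, Fin.reduceFinMk, v0, v1, v2, v3, v01, v11, v21, v31,
        mem_inter_iff, mem_insert_iff, mem_singleton_iff, ext_iff', pt_zero, pt_one] <;>
      obtain ⟨h1, h2, h3⟩ := hz1 <;>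
      obtain ⟨h4, h5, h6⟩ := hz2
    all_goals first
      | exact absurd rfl hij
      | (exfalso; linarith)
      | (constructor <;> first
          | (left; constructor <;> linarith)
          | (right; constructor <;> linarith))
  · rw [interior_sq]; exact osq_nonempty hr
  · rw [frontier_sq]
    ext z
    simp only [mem_sdiff, mem_iUnion]
    constructor
    · rintro ⟨⟨⟨h1, h2⟩, h3, h4⟩, hno⟩
      rcases h1.eq_or_lt with e1 | e1
      · refine ⟨3, ?_⟩
        rw [s3]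
        exact ⟨e1.symm, h3, h4⟩
      rcases h2.eq_or_lt with e2 | e2
      · refine ⟨1, ?_⟩
        rw [s1]
        exact ⟨e2, h3, h4⟩
      rcases h3.eq_or_lt with e3 | e3
      · refine ⟨0, ?_⟩
        rw [s0]
        exact ⟨e3.symm, h1, h2⟩
      rcases h4.eq_or_lt with e4 | e4
      · refine ⟨2, ?_⟩
        rw [s2]
        exact ⟨e4, h1, h2⟩
      exact absurd ⟨⟨e1, e2⟩, e3, e4⟩ hno
    · rintro ⟨i, hi⟩
      fin_cases i <;>
        simp only [Fin.zero_eta, Fin.mk_one, Fin.reduceFinMk, s0, s1, s2, s3,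
          mem_ofPred_eq] at hi <;>
        obtain ⟨h1, h2, h3⟩ := hi <;>
        refine ⟨⟨⟨by linarith, by linarith⟩, by linarith, by linarith⟩, ?_⟩ <;>
        rintro ⟨⟨h4, h5⟩, h6, h7⟩ <;> linarith

/-! ### Similitudes `z ↦ c z + v` -/

/-- the similitude `z ↦ c z + v` -/
noncomputable def dil (c : ℝ) (hc : 0 < c) (v : Plane) : Plane ≃ᵈ Plane where
  toFun z := c • z + v
  invFun z := c⁻¹ • (z - v)
  left_inv z := by simp [hc.ne']
  right_inv z := by simp [hc.ne']
  edist_eq' := ⟨⟨c, hc.le⟩, by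
    intro h
    exact hc.ne' (congrArg NNReal.toReal h), fun x y => by
    rw [edist_add_right, edist_smul₀, ENNReal.smul_def, smul_eq_mul]
    congr 2
    apply NNReal.eq
    rw [coe_nnnorm, Real.norm_of_nonneg hc.le]
    rfl⟩

lemma dil_apply (c : ℝ) (hc : 0 < c) (v z : Plane) : dil c hc v z = c • z + v := rfl

lemma dist_pts : dist (pt 0 0) (pt 1 0) = 1 := by
  rw [EuclideanSpace.dist_eq]
  simp [Fin.sum_univ_two, Real.dist_eq]

lemma dist_dil (c : ℝ) (hc : 0 < c) (v z w : Plane) :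
    dist (dil c hc v z) (dil c hc v w) = c * dist z w := by
  rw [dil_apply, dil_apply, dist_add_right, dist_smul₀, Real.norm_of_nonneg hc.le]

lemma ratio_dil (c : ℝ) (hc : 0 < c) (v : Plane) : (Dilation.ratio (dil c hc v) : ℝ) = c := by
  have h := Dilation.dist_eq (dil c hc v) (pt 0 0) (pt 1 0)
  rw [dist_dil, dist_pts, mul_one, mul_one] at h
  exact h.symm

lemma dil_image_sq (c : ℝ) (hc : 0 < c) (v : Plane) (x y r : ℝ) :
    dil c hc v '' sq x y r = sq (c * x + v 0) (c * y + v 1) (c * r) := by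
  ext z
  constructor
  · rintro ⟨w, ⟨⟨h1, h2⟩, h3, h4⟩, rfl⟩
    simp only [dil_apply, sq, mem_ofPred_eq, PiLp.add_apply, PiLp.smul_apply, smul_eq_mul]
    refine ⟨⟨?_, ?_⟩, ?_, ?_⟩ <;> nlinarith
  · rintro ⟨⟨h1, h2⟩, h3, h4⟩
    refine ⟨(dil c hc v).symm z, ?_, (dil c hc v).apply_symm_apply z⟩
    have e : ∀ i, ((dil c hc v).symm z) i = c⁻¹ * (z i - v i) := fun i => rfl
    simp only [sq, mem_ofPred_eq, e]
    refine ⟨⟨?_, ?_⟩, ?_, ?_⟩
    · rw [le_inv_mul_iff₀ hc]; linarith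
    · rw [inv_mul_le_iff₀ hc]; linarith
    · rw [le_inv_mul_iff₀ hc]; linarith
    · rw [inv_mul_le_iff₀ hc]; linarith

lemma similar_sq {x y r x' y' r' : ℝ} (hr : 0 < r) (hr' : 0 < r') :
    Similar (sq x y r) (sq x' y' r') := by
  refine ⟨dil (r' / r) (by positivity) (pt (x' - r' / r * x) (y' - r' / r * y)), ?_⟩
  rw [dil_image_sq, pt_zero, pt_one]
  congr 1
  · ring
  · ring
  · field_simp

lemma translate_sq (v : Plane) (x y r : ℝ) :
    (IsometryEquiv.addLeft v) '' sq x y r = sq (x + v 0) (y + v 1) r := by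
  have h := dil_image_sq 1 one_pos v x y r
  rw [one_mul, one_mul, one_mul] at h
  rw [← h]
  congr 1
  funext z
  rw [dil_apply, one_smul, IsometryEquiv.addLeft_apply, add_comm]

/-! ### The tiling -/

/-- the `2 × 2` block with lower left corner `(2i, 2j)` is merged into one tile -/
def Merged (i j : ℤ) : Prop := 8 ∣ i ∧ 8 ∣ j ∧ Even (padicValNat 2 (Int.gcd (i / 8) (j / 8)))

open Classical in
/-- the tile containing the unit square with lower left corner `(m, n)` -/
noncomputable def tile (m n : ℤ) : Set Plane :=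
  if Merged (m / 2) (n / 2) then sq (2 * (m / 2 : ℤ)) (2 * (n / 2 : ℤ)) 2 else sq m n 1

/-- the tiling -/
def T₀ : Set (Set Plane) := {t | ∃ m n : ℤ, t = tile m n}

lemma tile_merged {m n : ℤ} (h : Merged (m / 2) (n / 2)) :
    tile m n = sq (2 * (m / 2 : ℤ)) (2 * (n / 2 : ℤ)) 2 := if_pos h

lemma tile_unmerged {m n : ℤ} (h : ¬ Merged (m / 2) (n / 2)) : tile m n = sq m n 1 := if_neg h

lemma tile_eq_sq (m n : ℤ) : ∃ (x y : ℤ) (r : ℝ), (r = 1 ∨ r = 2) ∧ tile m n = sq x y r := by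
  by_cases h : Merged (m / 2) (n / 2)
  · exact ⟨2 * (m / 2), 2 * (n / 2), 2, Or.inr rfl, by rw [tile_merged h]; push_cast; rfl⟩
  · exact ⟨m, n, 1, Or.inl rfl, tile_unmerged h⟩

lemma unit_subset_tile (m n : ℤ) : sq m n 1 ⊆ tile m n := by
  by_cases h : Merged (m / 2) (n / 2)
  · rw [tile_merged h]
    rintro z ⟨⟨h1, h2⟩, h3, h4⟩
    have a1 : 2 * (m / 2) ≤ m ∧ m ≤ 2 * (m / 2) + 1 := by omega
    have a2 : 2 * (n / 2) ≤ n ∧ n ≤ 2 * (n / 2) + 1 := by omega
    have b1 : (2 * (m / 2 : ℤ) : ℝ) ≤ m ∧ (m : ℝ) ≤ 2 * (m / 2 : ℤ) + 1 := by exact_mod_cast a1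
    have b2 : (2 * (n / 2 : ℤ) : ℝ) ≤ n ∧ (n : ℝ) ≤ 2 * (n / 2 : ℤ) + 1 := by exact_mod_cast a2
    exact ⟨⟨by linarith [b1.1], by linarith [b1.2]⟩, by linarith [b2.1], by linarith [b2.2]⟩
  · rw [tile_unmerged h]

lemma tile_subset_block (m n : ℤ) : tile m n ⊆ sq (2 * (m / 2 : ℤ)) (2 * (n / 2 : ℤ)) 2 := by
  by_cases h : Merged (m / 2) (n / 2)
  · rw [tile_merged h]
  · rw [tile_unmerged h]
    rintro z ⟨⟨h1, h2⟩, h3, h4⟩
    have a1 : 2 * (m / 2) ≤ m ∧ m ≤ 2 * (m / 2) + 1 := by omega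
    have a2 : 2 * (n / 2) ≤ n ∧ n ≤ 2 * (n / 2) + 1 := by omega
    have b1 : (2 * (m / 2 : ℤ) : ℝ) ≤ m ∧ (m : ℝ) ≤ 2 * (m / 2 : ℤ) + 1 := by exact_mod_cast a1
    have b2 : (2 * (n / 2 : ℤ) : ℝ) ≤ n ∧ (n : ℝ) ≤ 2 * (n / 2 : ℤ) + 1 := by exact_mod_cast a2
    exact ⟨⟨by linarith [b1.1], by linarith [b1.2]⟩, by linarith [b2.1], by linarith [b2.2]⟩

lemma mem_tile_floor (z : Plane) : z ∈ tile ⌊z 0⌋ ⌊z 1⌋ := by
  apply unit_subset_tile
  exact ⟨⟨Int.floor_le _, (Int.lt_floor_add_one _).le⟩, Int.floor_le _, (Int.lt_floor_add_one _).le⟩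

lemma tile_eq_of_mem_interior {m n : ℤ} {z : Plane} (hz : z ∈ interior (tile m n)) :
    tile m n = tile ⌊z 0⌋ ⌊z 1⌋ := by
  by_cases h : Merged (m / 2) (n / 2)
  · rw [tile_merged h, interior_sq] at hz
    obtain ⟨⟨h1, h2⟩, h3, h4⟩ := hz
    have e1 : ⌊z 0⌋ / 2 = m / 2 := by
      have a : 2 * (m / 2) ≤ ⌊z 0⌋ := Int.le_floor.mpr (by push_cast; exact h1.le)
      have b : ⌊z 0⌋ < 2 * (m / 2) + 2 := Int.floor_lt.mpr (by push_cast; exact h2)
      omega
    have e2 : ⌊z 1⌋ / 2 = n / 2 := by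
      have a : 2 * (n / 2) ≤ ⌊z 1⌋ := Int.le_floor.mpr (by push_cast; exact h3.le)
      have b : ⌊z 1⌋ < 2 * (n / 2) + 2 := Int.floor_lt.mpr (by push_cast; exact h4)
      omega
    rw [tile_merged h, tile_merged (by rw [e1, e2]; exact h), e1, e2]
  · rw [tile_unmerged h, interior_sq] at hz
    obtain ⟨⟨h1, h2⟩, h3, h4⟩ := hz
    have e1 : ⌊z 0⌋ = m := Int.floor_eq_iff.mpr ⟨h1.le, h2⟩
    have e2 : ⌊z 1⌋ = n := Int.floor_eq_iff.mpr ⟨h3.le, h4⟩
    rw [e1, e2]

lemma tile_pos (m n : ℤ) : ∃ (x y r : ℝ), 0 < r ∧ tile m n = sq x y r := by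
  obtain ⟨x, y, r, hr, h⟩ := tile_eq_sq m n
  refine ⟨x, y, r, ?_, h⟩
  rcases hr with rfl | rfl <;> norm_num

lemma isTiling_T₀ : IsTiling T₀ where
  compact := by
    rintro t ⟨m, n, rfl⟩
    obtain ⟨x, y, r, -, h⟩ := tile_pos m n
    rw [h]; exact isCompact_sq x y r
  cover := by
    rw [eq_univ_iff_forall]
    intro z
    exact ⟨tile ⌊z 0⌋ ⌊z 1⌋, ⟨_, _, rfl⟩, mem_tile_floor z⟩
  meet := by
    have key : ∀ m n m' n' : ℤ, tile m n ≠ tile m' n' → ∀ z, z ∈ tile m' n' →
        z ∉ interior (tile m n) := by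
      intro m n m' n' hne z hz hzi
      obtain ⟨x, y, r, hr, h⟩ := tile_pos m' n'
      rw [h] at hz
      have hcl := mem_closure_osq hr hz
      rw [_root_.mem_closure_iff] at hcl
      obtain ⟨w, hw1, hw2⟩ := hcl _ isOpen_interior hzi
      rw [← interior_sq, ← h] at hw2
      exact hne ((tile_eq_of_mem_interior hw1).trans (tile_eq_of_mem_interior hw2).symm)
    rintro t ⟨m, n, rfl⟩ t' ⟨m', n', rfl⟩ hne z ⟨hz, hz'⟩
    exact ⟨⟨subset_closure hz, key _ _ _ _ hne z hz'⟩,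
      ⟨subset_closure hz', key _ _ _ _ hne.symm z hz⟩⟩

lemma block_union (x y : ℤ) (r : ℤ) (hr : 0 < r) :
    sq (2 * x) (2 * y) (2 * r) = ⋃₀ {t | t ∈ T₀ ∧ t ⊆ sq (2 * x) (2 * y) (2 * r)} := by
  apply Subset.antisymm
  · intro z hz
    obtain ⟨⟨h1, h2⟩, h3, h4⟩ := hz
    obtain ⟨m, hm1, hm2, hm3, hm4⟩ : ∃ m : ℤ, (m : ℝ) ≤ z 0 ∧ z 0 ≤ m + 1 ∧ 2 * x ≤ m ∧
        m + 1 ≤ 2 * x + 2 * r := by
      rcases h2.lt_or_eq with hlt | heq
      · refine ⟨⌊z 0⌋, Int.floor_le _, (Int.lt_floor_add_one _).le,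
          Int.le_floor.mpr (by push_cast; exact h1), ?_⟩
        have : ⌊z 0⌋ < 2 * x + 2 * r := Int.floor_lt.mpr (by push_cast; exact hlt)
        omega
      · refine ⟨2 * x + 2 * r - 1, ?_, ?_, by omega, by omega⟩
        · push_cast; linarith
        · push_cast; linarith
    obtain ⟨n, hn1, hn2, hn3, hn4⟩ : ∃ n : ℤ, (n : ℝ) ≤ z 1 ∧ z 1 ≤ n + 1 ∧ 2 * y ≤ n ∧
        n + 1 ≤ 2 * y + 2 * r := by
      rcases h4.lt_or_eq with hlt | heq
      · refine ⟨⌊z 1⌋, Int.floor_le _, (Int.lt_floor_add_one _).le,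
          Int.le_floor.mpr (by push_cast; exact h3), ?_⟩
        have : ⌊z 1⌋ < 2 * y + 2 * r := Int.floor_lt.mpr (by push_cast; exact hlt)
        omega
      · refine ⟨2 * y + 2 * r - 1, ?_, ?_, by omega, by omega⟩
        · push_cast; linarith
        · push_cast; linarith
    refine ⟨tile m n, ⟨⟨m, n, rfl⟩, ?_⟩, unit_subset_tile m n ⟨⟨hm1, hm2⟩, hn1, hn2⟩⟩
    refine (tile_subset_block m n).trans ?_
    rintro w ⟨⟨g1, g2⟩, g3, g4⟩
    have a1 : 2 * x ≤ 2 * (m / 2) ∧ 2 * (m / 2) + 2 ≤ 2 * x + 2 * r := by omega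
    have a2 : 2 * y ≤ 2 * (n / 2) ∧ 2 * (n / 2) + 2 ≤ 2 * y + 2 * r := by omega
    have b1 : (2 * x : ℝ) ≤ 2 * (m / 2 : ℤ) ∧ (2 * (m / 2 : ℤ) + 2 : ℝ) ≤ 2 * x + 2 * r := by
      exact_mod_cast a1
    have b2 : (2 * y : ℝ) ≤ 2 * (n / 2 : ℤ) ∧ (2 * (n / 2 : ℤ) + 2 : ℝ) ≤ 2 * y + 2 * r := by
      exact_mod_cast a2
    exact ⟨⟨by linarith [b1.1], by linarith [b1.2]⟩, by linarith [b2.1], by linarith [b2.2]⟩
  · rintro z ⟨t, ⟨-, ht⟩, hz⟩
    exact ht hz

lemma double_T₀ : ∀ t ∈ T₀, ∃ S : Set (Set Plane), S ⊆ T₀ ∧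
    (fun x : Plane => (2 : ℝ) • x) '' t = ⋃₀ S := by
  have hfun : (fun x : Plane => (2 : ℝ) • x) = dil 2 two_pos 0 := by
    funext x
    rw [dil_apply, add_zero]
  rw [hfun]
  rintro t ⟨m, n, rfl⟩
  obtain ⟨x, y, r, hr, h⟩ := tile_eq_sq m n
  obtain ⟨k, hk, hk'⟩ : ∃ k : ℤ, 0 < k ∧ r = k := by
    rcases hr with rfl | rfl
    · exact ⟨1, by norm_num, by norm_num⟩
    · exact ⟨2, by norm_num, by norm_num⟩
  refine ⟨{t | t ∈ T₀ ∧ t ⊆ sq (2 * x) (2 * y) (2 * k)}, fun t ht => ht.1, ?_⟩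
  rw [← block_union x y k hk, h, dil_image_sq, hk']
  simp

lemma selfSimilar_T₀ : SelfSimilar T₀ := by
  refine ⟨dil 2 two_pos 0, ?_, ?_⟩
  · have := ratio_dil 2 two_pos 0
    rw [← NNReal.coe_lt_coe, this]
    norm_num
  · have hfun : (dil 2 two_pos 0 : Plane → Plane) = (fun x : Plane => (2 : ℝ) • x) := by
      funext x
      rw [dil_apply, add_zero]
    rw [hfun]
    exact double_T₀

lemma finiteOrder_T₀ : FiniteOrder T₀ := by
  refine ⟨{sq 0 0 1, sq 0 0 2}, by simp, ?_⟩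
  rintro t ⟨m, n, rfl⟩
  obtain ⟨x, y, r, hr, h⟩ := tile_eq_sq m n
  refine ⟨sq 0 0 r, ?_, IsometryEquiv.addLeft (pt x y), ?_⟩
  · rcases hr with rfl | rfl <;> simp
  · rw [translate_sq, h]; simp

/-! ### Quasiperiodicity -/

lemma pow_dvd_gcd_iff (κ : ℕ) (x y : ℤ) :
    (2 ^ κ ∣ Int.gcd x y ↔ (2 : ℤ) ^ κ ∣ x ∧ (2 : ℤ) ^ κ ∣ y) := by
  rw [← Int.dvd_coe_gcd_iff, ← Int.natCast_dvd_natCast]
  push_cast
  rfl

lemma padicValNat_gcd_shift {K : ℕ} {i j : ℤ} (hi : |i| < 2 ^ K) (hj : |j| < 2 ^ K)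
    (hne : ¬ (i = 0 ∧ j = 0)) (a b : ℤ) :
    padicValNat 2 (Int.gcd (i + 2 ^ K * a) (j + 2 ^ K * b)) = padicValNat 2 (Int.gcd i j) := by
  have hfact : Fact (Nat.Prime 2) := ⟨Nat.prime_two⟩
  have hg : Int.gcd i j ≠ 0 := by
    intro h
    rw [Int.gcd_eq_zero_iff] at h
    exact hne h
  -- divisibility by powers
  have hdvd : ∀ κ : ℕ, κ ≤ K → (2 ^ κ ∣ Int.gcd (i + 2 ^ K * a) (j + 2 ^ K * b) ↔
      2 ^ κ ∣ Int.gcd i j) := by
    intro κ hκ
    have hK : (2 : ℤ) ^ κ ∣ 2 ^ K := pow_dvd_pow 2 hκ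
    rw [pow_dvd_gcd_iff, pow_dvd_gcd_iff, Int.dvd_add_left (hK.mul_right a),
      Int.dvd_add_left (hK.mul_right b)]
  set v := padicValNat 2 (Int.gcd i j) with hv
  have hv1 : 2 ^ v ∣ Int.gcd i j := pow_padicValNat_dvd
  have hv2 : ¬ 2 ^ (v + 1) ∣ Int.gcd i j := pow_succ_padicValNat_not_dvd hg
  have hvK : v < K := by
    by_contra hcon
    have h1 : 2 ^ K ∣ Int.gcd i j := (pow_dvd_pow 2 (not_lt.mp hcon)).trans hv1
    rw [pow_dvd_gcd_iff] at h1
    exact hne ⟨Int.eq_zero_of_abs_lt_dvd h1.1 hi, Int.eq_zero_of_abs_lt_dvd h1.2 hj⟩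
  have h1 := (hdvd v hvK.le).mpr hv1
  have h2 := mt (hdvd (v + 1) hvK).mp hv2
  have hg' : Int.gcd (i + 2 ^ K * a) (j + 2 ^ K * b) ≠ 0 := by
    intro h
    apply h2
    rw [h]
    exact dvd_zero _
  apply le_antisymm
  · by_contra hcon
    exact h2 ((padicValNat_dvd_iff_le hg').mpr (by omega))
  · exact (padicValNat_dvd_iff_le hg').mp h1

lemma merged_shift {K : ℕ} (hK : Even K) {i j : ℤ} (hi : |i| < 2 ^ K) (hj : |j| < 2 ^ K)
    {a b : ℤ} (ha : Odd a) :
    Merged (i + 8 * 2 ^ K * a) (j + 8 * 2 ^ K * b) ↔ Merged i j := by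
  have hfact : Fact (Nat.Prime 2) := ⟨Nat.prime_two⟩
  unfold Merged
  have e1 : (8 : ℤ) ∣ i + 8 * 2 ^ K * a ↔ 8 ∣ i :=
    Int.dvd_add_left ((Dvd.intro _ rfl : (8 : ℤ) ∣ 8 * 2 ^ K).mul_right a)
  have e2 : (8 : ℤ) ∣ j + 8 * 2 ^ K * b ↔ 8 ∣ j :=
    Int.dvd_add_left ((Dvd.intro _ rfl : (8 : ℤ) ∣ 8 * 2 ^ K).mul_right b)
  rw [e1, e2]
  refine and_congr_right fun h1 => and_congr_right fun h2 => ?_
  obtain ⟨i', rfl⟩ := h1
  obtain ⟨j', rfl⟩ := h2
  have q1 : (8 * i' + 8 * 2 ^ K * a) / 8 = i' + 2 ^ K * a := by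
    rw [show 8 * i' + 8 * 2 ^ K * a = 8 * (i' + 2 ^ K * a) by ring]
    exact Int.mul_ediv_cancel_left _ (by norm_num)
  have q2 : (8 * j' + 8 * 2 ^ K * b) / 8 = j' + 2 ^ K * b := by
    rw [show 8 * j' + 8 * 2 ^ K * b = 8 * (j' + 2 ^ K * b) by ring]
    exact Int.mul_ediv_cancel_left _ (by norm_num)
  have q3 : (8 * i') / 8 = i' := Int.mul_ediv_cancel_left _ (by norm_num)
  have q4 : (8 * j') / 8 = j' := Int.mul_ediv_cancel_left _ (by norm_num)
  rw [q1, q2, q3, q4]
  have hi' : |i'| < 2 ^ K := by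
    rw [abs_mul] at hi
    have := abs_nonneg i'
    have h8 : |(8 : ℤ)| = 8 := by norm_num
    rw [h8] at hi
    linarith
  have hj' : |j'| < 2 ^ K := by
    rw [abs_mul] at hj
    have := abs_nonneg j'
    have h8 : |(8 : ℤ)| = 8 := by norm_num
    rw [h8] at hj
    linarith
  by_cases hne : i' = 0 ∧ j' = 0
  · obtain ⟨rfl, rfl⟩ := hne
    have e3 : Int.gcd (0 + 2 ^ K * a) (0 + 2 ^ K * b) = 2 ^ K * Int.gcd a b := by
      rw [zero_add, zero_add, Int.gcd_mul_left, Int.natAbs_pow]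
      rfl
    have hodd : ¬ 2 ∣ Int.gcd a b := by
      intro h
      have h3 : (2 : ℤ) ∣ a := (Int.natCast_dvd_natCast.mpr h).trans (Int.gcd_dvd_left a b)
      rw [Int.odd_iff] at ha
      omega
    have hg0 : Int.gcd a b ≠ 0 := fun h => hodd (h ▸ dvd_zero 2)
    rw [e3, padicValNat.mul (by positivity) hg0, padicValNat.prime_pow,
      padicValNat.eq_zero_of_not_dvd hodd]
    simpa using hK
  · rw [padicValNat_gcd_shift hi' hj' hne]

lemma tile_shift {K : ℕ} (hK : Even K) {m n : ℤ} (hm : |m| < 2 ^ K) (hn : |n| < 2 ^ K)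
    {a b : ℤ} (ha : Odd a) :
    (IsometryEquiv.addLeft (pt (16 * 2 ^ K * a) (16 * 2 ^ K * b))) '' tile m n =
      tile (m + 16 * 2 ^ K * a) (n + 16 * 2 ^ K * b) := by
  have hm2 : (m + 16 * 2 ^ K * a) / 2 = m / 2 + 8 * 2 ^ K * a := by
    rw [show m + 16 * 2 ^ K * a = m + 2 * (8 * 2 ^ K * a) by ring]
    omega
  have hn2 : (n + 16 * 2 ^ K * b) / 2 = n / 2 + 8 * 2 ^ K * b := by
    rw [show n + 16 * 2 ^ K * b = n + 2 * (8 * 2 ^ K * b) by ring]
    omega
  have hi : |m / 2| < 2 ^ K := by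
    rw [abs_lt] at hm ⊢; omega
  have hj : |n / 2| < 2 ^ K := by
    rw [abs_lt] at hn ⊢; omega
  have hiff := merged_shift hK hi hj (b := b) ha
  by_cases h : Merged (m / 2) (n / 2)
  · rw [tile_merged h, tile_merged (by rw [hm2, hn2]; exact hiff.mpr h), translate_sq, pt_zero,
      pt_one, hm2, hn2]
    push_cast
    congr 1 <;> ring
  · rw [tile_unmerged h, tile_unmerged (by rw [hm2, hn2]; exact mt hiff.mp h), translate_sq,
      pt_zero, pt_one]
    push_cast
    rfl

lemma quasiperiodic_T₀ : Quasiperiodic T₀ := by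
  rintro U ⟨hU, ⟨e⟩⟩
  -- the union of the patch is bounded
  have hcomp : IsCompact (⋃₀ U) := by
    have h1 : CompactSpace ↥(closedBall (0 : Plane) 1) :=
      isCompact_iff_compactSpace.mp (isCompact_closedBall 0 1)
    rw [isCompact_iff_compactSpace]
    exact e.symm.compactSpace
  obtain ⟨M, hM⟩ := hcomp.isBounded.subset_closedBall 0
  obtain ⟨K, hKe, hK⟩ : ∃ K : ℕ, Even K ∧ max M 1 < 2 ^ K := by
    obtain ⟨k, hk⟩ := pow_unbounded_of_one_lt (max M 1) (one_lt_two)
    refine ⟨2 * k, even_two_mul k, hk.trans_le ?_⟩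
    exact pow_le_pow_right₀ (by norm_num) (by omega)
  have hMK : M < 2 ^ K := (le_max_left _ _).trans_lt hK
  set d : ℝ := 16 * 2 ^ K with hd
  have hd0 : 0 < d := by positivity
  refine ⟨max M 1 + 2 * d, by positivity, fun x => ?_⟩
  -- choose the translation
  set a : ℤ := 2 * ⌊x 0 / (2 * d)⌋ + 1 with ha
  set b : ℤ := ⌊x 1 / d⌋ with hb
  have hao : Odd a := ⟨_, rfl⟩
  have hxa : |d * a - x 0| ≤ d := by
    have h1 := Int.floor_le (x 0 / (2 * d))
    have h2 := Int.lt_floor_add_one (x 0 / (2 * d))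
    rw [le_div_iff₀ (by positivity)] at h1
    rw [div_lt_iff₀ (by positivity)] at h2
    rw [ha]
    push_cast
    rw [abs_le]
    constructor <;> nlinarith
  have hxb : |d * b - x 1| ≤ d := by
    have h1 := Int.floor_le (x 1 / d)
    have h2 := Int.lt_floor_add_one (x 1 / d)
    rw [le_div_iff₀ hd0] at h1
    rw [div_lt_iff₀ hd0] at h2
    rw [abs_le]
    constructor <;> nlinarith
  set v : Plane := pt (16 * 2 ^ K * a) (16 * 2 ^ K * b) with hv
  have hvx : dist v x ≤ 2 * d := by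
    apply dist_le_of_coord
    · simpa [hv, hd] using hxa
    · simpa [hv, hd] using hxb
  have hunion : ⋃₀ ((fun t : Set Plane => (IsometryEquiv.addLeft v) '' t) '' U) =
      (IsometryEquiv.addLeft v) '' (⋃₀ U) := by
    rw [sUnion_image, image_sUnion]
    simp
  refine ⟨(fun t : Set Plane => (IsometryEquiv.addLeft v) '' t) '' U, ⟨?_, ?_⟩,
    ⟨IsometryEquiv.addLeft v, rfl⟩, ?_⟩
  · rintro _ ⟨t, ht, rfl⟩
    obtain ⟨m, n, rfl⟩ := hU ht
    have hmem : pt m n ∈ tile m n := by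
      apply unit_subset_tile
      refine ⟨⟨?_, ?_⟩, ?_, ?_⟩ <;> simp
    have hb' := hM (mem_sUnion_of_mem hmem ht)
    rw [Metric.mem_closedBall] at hb'
    have h0 := (abs_coord_le_dist _ _ 0).trans hb'
    have h1 := (abs_coord_le_dist _ _ 1).trans hb'
    simp only [pt_zero, pt_one, PiLp.zero_apply, sub_zero] at h0 h1
    have hm : |m| < 2 ^ K := by
      have : |(m : ℝ)| < 2 ^ K := h0.trans_lt hMK
      exact_mod_cast this
    have hn : |n| < 2 ^ K := by
      have : |(n : ℝ)| < 2 ^ K := h1.trans_lt hMK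
      exact_mod_cast this
    exact ⟨_, _, tile_shift hKe hm hn hao⟩
  · rw [hunion]
    exact ⟨((IsometryEquiv.addLeft v).toHomeomorph.image (⋃₀ U)).symm.trans e⟩
  · rw [hunion]
    rintro _ ⟨w, hw, rfl⟩
    have h1 := hM hw
    rw [Metric.mem_closedBall, dist_zero_right] at h1
    rw [Metric.mem_closedBall, IsometryEquiv.addLeft_apply]
    calc dist (v + w) x ≤ dist (v + w) v + dist v x := dist_triangle _ _ _
      _ ≤ max M 1 + 2 * d := by
        apply add_le_add _ hvx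
        rw [dist_eq_norm, add_sub_cancel_left]
        exact h1.trans (le_max_left _ _)

/-! ### Nonperiodicity -/

lemma sq_inj {x y r x' y' r' : ℝ} (hr : 0 < r) (hr' : 0 < r') (h : sq x y r = sq x' y' r') :
    x = x' ∧ y = y' ∧ r = r' := by
  have key : ∀ {x y r x' y' r' : ℝ}, 0 < r → sq x y r = sq x' y' r' →
      x' ≤ x ∧ y' ≤ y ∧ x + r ≤ x' + r' := by
    intro x y r x' y' r' hr h
    have h1 : pt x y ∈ sq x' y' r' := by
      rw [← h]
      refine ⟨⟨?_, ?_⟩, ?_, ?_⟩ <;> simp [hr.le]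
    have h2 : pt (x + r) (y + r) ∈ sq x' y' r' := by
      rw [← h]
      refine ⟨⟨?_, ?_⟩, ?_, ?_⟩ <;> simp [hr.le]
    obtain ⟨⟨a1, a2⟩, a3, a4⟩ := h1
    obtain ⟨⟨b1, b2⟩, b3, b4⟩ := h2
    simp only [pt_zero, pt_one] at *
    exact ⟨a1, a3, b2⟩
  obtain ⟨a1, a2, a3⟩ := key hr h
  obtain ⟨b1, b2, b3⟩ := key hr' h.symm
  exact ⟨by linarith, by linarith, by linarith⟩

lemma merged_of_sq_two {x y : ℝ} (h : sq x y 2 ∈ T₀) :
    ∃ i j : ℤ, Even (padicValNat 2 (Int.gcd i j)) ∧ x = 16 * i ∧ y = 16 * j := by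
  obtain ⟨m, n, hmn⟩ := h
  by_cases hm : Merged (m / 2) (n / 2)
  · rw [tile_merged hm] at hmn
    obtain ⟨h1, h2, -⟩ := sq_inj two_pos two_pos hmn
    obtain ⟨⟨i, hi⟩, ⟨j, hj⟩, hE⟩ := hm
    rw [hi, hj, Int.mul_ediv_cancel_left _ (by norm_num),
      Int.mul_ediv_cancel_left _ (by norm_num)] at hE
    refine ⟨i, j, hE, ?_, ?_⟩
    · rw [h1, hi]; push_cast; ring
    · rw [h2, hj]; push_cast; ring
  · rw [tile_unmerged hm] at hmn
    obtain ⟨-, -, h3⟩ := sq_inj two_pos one_pos hmn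
    norm_num at h3

lemma sq_two_mem : sq 0 0 2 ∈ T₀ := by
  refine ⟨0, 0, ?_⟩
  rw [tile_merged]
  · simp
  · simp [Merged]

lemma sq_one_mem : sq 2 0 1 ∈ T₀ := by
  refine ⟨2, 0, ?_⟩
  rw [tile_unmerged]
  · simp
  · rintro ⟨h, -⟩
    norm_num at h

lemma nonperiodic_T₀ (v : Plane) (hv : v ≠ 0) :
    (fun t : Set Plane => (fun x => v + x) '' t) '' T₀ ≠ T₀ := by
  intro h
  have hfact : Fact (Nat.Prime 2) := ⟨Nat.prime_two⟩
  have key : ∀ t ∈ T₀, (IsometryEquiv.addLeft v) '' t ∈ T₀ := by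
    intro t ht
    rw [← h]
    exact ⟨t, ht, rfl⟩
  have h1 := key _ sq_two_mem
  rw [translate_sq, zero_add, zero_add] at h1
  have h2 := key _ h1
  rw [translate_sq] at h2
  obtain ⟨i, j, hE, hi, hj⟩ := merged_of_sq_two h1
  obtain ⟨i', j', hE', hi', hj'⟩ := merged_of_sq_two h2
  have e1 : i' = 2 * i := by
    have : (16 * i' : ℝ) = 16 * (2 * i) := by rw [← hi', hi]; ring
    have : (i' : ℝ) = 2 * i := by linarith
    exact_mod_cast this
  have e2 : j' = 2 * j := by
    have : (16 * j' : ℝ) = 16 * (2 * j) := by rw [← hj', hj]; ring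
    have : (j' : ℝ) = 2 * j := by linarith
    exact_mod_cast this
  have hg : Int.gcd i j ≠ 0 := by
    intro hg
    rw [Int.gcd_eq_zero_iff] at hg
    apply hv
    rw [ext_iff', hi, hj, hg.1, hg.2]
    simp
  rw [e1, e2, Int.gcd_mul_left, show Int.natAbs 2 = 2 from rfl,
    padicValNat.mul (by norm_num) hg, padicValNat_self] at hE'
  rw [Nat.even_iff] at hE hE'
  omega

/-! ### The tiling does not come from a generating pair -/

section generating

variable {N : ℕ} {p : Set Plane} {F : Fin N → (Plane ≃ᵈ Plane)} {s : ℝ} {a : Fin N → ℕ}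

lemma ratio_forward (h : IsGeneratingPair p F s a) (σ : List (Fin N)) :
    (Dilation.ratio (forward F σ) : ℝ) = s ^ weight a σ := by
  induction σ with
  | nil => simp [forward, weight, DilationEquiv.one_def]
  | cons n σ ih =>
    have e : Dilation.ratio (forward F (n :: σ)) =
        Dilation.ratio (F n) * Dilation.ratio (forward F σ) :=
      map_mul DilationEquiv.ratioHom (F n) (forward F σ)
    rw [e, NNReal.coe_mul, ih, h.ratio]
    simp [weight, pow_add]

lemma ratio_backward (h : IsGeneratingPair p F s a) (σ : List (Fin N)) :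
    (Dilation.ratio (backward F σ) : ℝ) = (s ^ weight a σ)⁻¹ := by
  induction σ with
  | nil => simp [backward, weight, DilationEquiv.one_def]
  | cons n σ ih =>
    have e : Dilation.ratio (backward F (n :: σ)) =
        Dilation.ratio (F n)⁻¹ * Dilation.ratio (backward F σ) :=
      map_mul DilationEquiv.ratioHom (F n)⁻¹ (backward F σ)
    rw [e, NNReal.coe_mul, ih, DilationEquiv.ratio_inv, NNReal.coe_inv, h.ratio]
    simp [weight, pow_add, mul_comm]

lemma diam_image (h : IsGeneratingPair p F s a) (σ τ : List (Fin N)) :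
    diam ((fun x => backward F σ (forward F τ x)) '' p) =
      (s ^ weight a σ)⁻¹ * (s ^ weight a τ * diam p) := by
  have e : (fun x => backward F σ (forward F τ x)) '' p =
      backward F σ '' (forward F τ '' p) := (image_image _ _ _).symm
  rw [e, Dilation.diam_image, Dilation.diam_image, ratio_backward h, ratio_forward h]

lemma weight_append (σ τ : List (Fin N)) : weight a (σ ++ τ) = weight a σ + weight a τ := by
  simp [weight]

lemma weight_single (n : Fin N) : weight a [n] = a n := by simp [weight]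

lemma weightInit_snoc (σ : List (Fin N)) (n : Fin N) : weightInit a (σ ++ [n]) = weight a σ := by
  simp [weightInit, weight]

lemma weight_le (σ : List (Fin N)) {M : ℕ} (hM : ∀ n, a n ≤ M) (hσ : σ ≠ []) :
    weight a σ ≤ weightInit a σ + M := by
  obtain ⟨τ, n, rfl⟩ : ∃ τ n, σ = τ ++ [n] := ⟨_, _, (List.dropLast_append_getLast hσ).symm⟩
  rw [weightInit_snoc, weight_append, weight_single]
  have := hM n
  omega

lemma forward_append (σ τ : List (Fin N)) : forward F (σ ++ τ) = forward F σ * forward F τ := by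
  simp [forward]

lemma exists_list_of_mem_closure {m : ℕ} (h : m ∈ AddSubmonoid.closure (range a)) :
    ∃ σ : List (Fin N), weight a σ = m := by
  induction h using AddSubmonoid.closure_induction with
  | mem x hx =>
    obtain ⟨n, rfl⟩ := hx
    exact ⟨[n], weight_single n⟩
  | zero => exact ⟨[], rfl⟩
  | add x y _ _ hx hy =>
    obtain ⟨σ, rfl⟩ := hx
    obtain ⟨τ, rfl⟩ := hy
    exact ⟨σ ++ τ, weight_append σ τ⟩

/-- diameter of the unit square -/
noncomputable def δ : ℝ := diam (sq 0 0 1)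

lemma δ_pos : 0 < δ := by
  have h : dist (pt 0 0) (pt 1 0) ≤ δ := by
    apply Metric.dist_le_diam_of_mem (isBounded_sq 0 0 1)
    · refine ⟨⟨?_, ?_⟩, ?_, ?_⟩ <;> simp
    · refine ⟨⟨?_, ?_⟩, ?_, ?_⟩ <;> simp
  rw [dist_pts] at h
  linarith

lemma δ_le : δ ≤ 3 / 2 := by
  apply Metric.diam_le_of_forall_dist_le (by norm_num)
  rintro z ⟨⟨h1, h2⟩, h3, h4⟩ w ⟨⟨h5, h6⟩, h7, h8⟩
  have := dist_le_of_coord' (z := z) (w := w) (d := 1) (by rw [abs_le]; constructor <;> linarith)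
    (by rw [abs_le]; constructor <;> linarith)
  linarith

lemma diam_sq {x y r : ℝ} (hr : 0 < r) : diam (sq x y r) = r * δ := by
  have h := dil_image_sq r hr (pt x y) 0 0 1
  rw [pt_zero, pt_one, mul_zero, mul_one, zero_add, zero_add] at h
  rw [← h, Dilation.diam_image, ratio_dil]
  rfl

lemma diam_tile {t : Set Plane} (ht : t ∈ T₀) : diam t = δ ∨ diam t = 2 * δ := by
  obtain ⟨m, n, rfl⟩ := ht
  obtain ⟨x, y, r, hr, h⟩ := tile_eq_sq m n
  rw [h]
  rcases hr with rfl | rfl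
  · left; rw [diam_sq one_pos, one_mul]
  · right; rw [diam_sq two_pos]

lemma tile_of_diam {t : Set Plane} (ht : t ∈ T₀) (hd : diam t = 2 * δ) :
    ∃ i j : ℤ, t = sq (16 * i) (16 * j) 2 := by
  obtain ⟨m, n, rfl⟩ := ht
  by_cases h : Merged (m / 2) (n / 2)
  · have h1 := tile_merged h
    have h2 : sq (2 * (m / 2 : ℤ)) (2 * (n / 2 : ℤ)) 2 ∈ T₀ := ⟨m, n, h1.symm⟩
    obtain ⟨i, j, -, hi, hj⟩ := merged_of_sq_two h2
    exact ⟨i, j, by rw [h1, hi, hj]⟩
  · rw [tile_unmerged h, diam_sq one_pos] at hd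
    have := δ_pos
    linarith

theorem not_generated (h : IsGeneratingPair p F s a) (θ : ℕ → Fin N) :
    T₀ ≠ generatedTiling p F a θ := by
  intro heq
  have hδ := δ_pos
  have hs0 := h.s_pos
  have hs1 := h.s_lt_one
  have hN : 0 < N := by have := h.two_le; omega
  -- tiles produced by the construction
  have hmem : ∀ k, 1 ≤ k → ∀ σ, weight a σ ≥ weight a (truncate θ k) →
      weight a (truncate θ k) > weightInit a σ →
      (fun x => backward F (truncate θ k) (forward F σ x)) '' p ∈ T₀ := by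
    intro k hk σ h1 h2
    rw [heq]
    exact ⟨k, hk, σ, h1, h2, rfl⟩
  -- `p` itself is a tile
  have hp : p ∈ T₀ := by
    have h1 : truncate θ 1 = [θ 0] := rfl
    have h2 := hmem 1 le_rfl [θ 0] (by rw [h1]) (by
      rw [h1, weight_single]
      exact h.a_pos _)
    rw [h1] at h2
    have h3 : (fun x => backward F [θ 0] (forward F [θ 0] x)) = id := by
      funext x
      simp [backward, forward, DilationEquiv.coe_inv]
    rw [h3, image_id] at h2
    exact h2
  -- the largest exponent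
  have : Nonempty (Fin N) := ⟨⟨0, hN⟩⟩
  obtain ⟨n₂, hn₂⟩ := Finite.exists_max a
  -- sizes of tiles
  have hsize : ∀ t ∈ T₀, ∃ j : ℕ, j < a n₂ ∧ diam t = s ^ j * diam p := by
    intro t ht
    rw [heq] at ht
    obtain ⟨k, hk, σ, h1, h2, rfl⟩ := ht
    refine ⟨weight a σ - weight a (truncate θ k), ?_, ?_⟩
    · have hσ : σ ≠ [] := by
        rintro rfl
        have e1 : weight a ([] : List (Fin N)) = 0 := rfl
        have e2 : weightInit a ([] : List (Fin N)) = 0 := rfl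
        omega
      have := weight_le σ hn₂ hσ
      omega
    · rw [diam_image h]
      rw [← mul_assoc]
      congr 1
      rw [inv_mul_eq_iff_eq_mul₀ (by positivity), ← pow_add]
      congr 1
      omega
  -- `p` is a square of side 2
  have hD : diam p = 2 * δ := by
    rcases diam_tile hp with h1 | h1
    · exfalso
      obtain ⟨j, -, hj⟩ := hsize _ sq_two_mem
      rw [diam_sq two_pos, h1] at hj
      have : s ^ j ≤ 1 := pow_le_one₀ hs0.le hs1.le
      nlinarith
    · exact h1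
  obtain ⟨j₁, hj₁, hj₁'⟩ := hsize _ sq_one_mem
  rw [diam_sq one_pos, hD] at hj₁'
  have hj₁0 : j₁ ≠ 0 := by
    rintro rfl
    rw [pow_zero] at hj₁'
    linarith
  have hM2 : 2 ≤ a n₂ := by omega
  -- weights of prefixes of θ
  have htr : ∀ k, k ≤ weight a (truncate θ k) := by
    intro k
    induction k with
    | zero => exact Nat.zero_le _
    | succ k ih =>
      have e : truncate θ (k + 1) = truncate θ k ++ [θ k] := by
        simp [truncate, List.range_succ]
      rw [e, weight_append, weight_single]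
      have := h.a_pos (θ k)
      omega
  -- the largest exponent is 2
  have hM : a n₂ = 2 := by
    by_contra hne
    have hM3 : 3 ≤ a n₂ := by omega
    obtain ⟨B, hB⟩ := Nat.exists_mem_closure_of_ge (range a)
    have hgcd : Nat.setGcd (range a) = 1 := by
      have h1 : Nat.setGcd (range a) ∣ Finset.univ.gcd a :=
        Finset.dvd_gcd fun n _ => Nat.setGcd_dvd_of_mem (mem_range_self n)
      rw [h.gcd] at h1
      exact Nat.dvd_one.mp h1
    set k := B + a n₂ with hk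
    set e := weight a (truncate θ k) with he
    have hek : k ≤ e := htr k
    have hex : ∀ j, j < a n₂ → ∃ t ∈ T₀, diam t = s ^ j * (2 * δ) := by
      intro j hj
      obtain ⟨τ, hτ⟩ := exists_list_of_mem_closure
        (hB (e + j - a n₂) (by omega) (by rw [hgcd]; exact one_dvd _))
      refine ⟨_, hmem k (by omega) (τ ++ [n₂]) ?_ ?_, ?_⟩
      · rw [weight_append, weight_single, hτ]; omega
      · rw [weightInit_snoc, hτ]; omega
      · rw [diam_image h, weight_append, weight_single, hτ, hD, ← mul_assoc]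
        congr 1
        rw [inv_mul_eq_iff_eq_mul₀ (by positivity), ← pow_add]
        congr 1
        omega
    obtain ⟨t1, ht1, hd1⟩ := hex 1 (by omega)
    obtain ⟨t2, ht2, hd2⟩ := hex 2 (by omega)
    rw [pow_one] at hd1
    have hs2 : s = 1 / 2 := by
      rcases diam_tile ht1 with h1 | h1
      · rw [h1] at hd1
        have : (2 * s - 1) * δ = 0 := by linarith
        rcases mul_eq_zero.mp this with h2 | h2
        · linarith
        · exact absurd h2 hδ.ne'
      · exfalso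
        rw [h1] at hd1
        nlinarith
    rw [hs2] at hd2
    rcases diam_tile ht2 with h1 | h1 <;> rw [h1] at hd2 <;> nlinarith
  have hj₁1 : j₁ = 1 := by omega
  have hs2 : s = 1 / 2 := by
    rw [hj₁1, pow_one] at hj₁'
    have : (2 * s - 1) * δ = 0 := by linarith
    rcases mul_eq_zero.mp this with h2 | h2
    · linarith
    · exact absurd h2 hδ.ne'
  -- some exponent is 1
  obtain ⟨n₁, hn₁⟩ : ∃ n₁, a n₁ = 1 := by
    by_contra hcon
    push Not at hcon
    have h2 : ∀ n, a n = 2 := fun n => by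
      have h3 := hn₂ n
      have h4 := h.a_pos n
      have h5 := hcon n
      omega
    have h6 : 2 ∣ Finset.univ.gcd a := Finset.dvd_gcd fun n _ => by rw [h2 n]
    rw [h.gcd] at h6
    omega
  -- two tiles in one supertile
  set e := weight a (truncate θ 2) with he
  have he2 : 2 ≤ e := htr 2
  set τ : List (Fin N) := List.replicate (e - 2) n₁ with hτ
  have hwτ : weight a τ = e - 2 := by
    simp [weight, hτ, hn₁]
  set G : Plane → Plane := fun x => backward F (truncate θ 2) (forward F τ x) with hG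
  have hGinj : Function.Injective G :=
    (backward F (truncate θ 2)).injective.comp (forward F τ).injective
  have hcomp : ∀ σ, (fun x => backward F (truncate θ 2) (forward F (τ ++ σ) x)) '' p =
      G '' (forward F σ '' p) := by
    intro σ
    rw [image_image]
    apply image_congr
    intro x _
    rw [forward_append]
    rfl
  set t₁ := (fun x => backward F (truncate θ 2) (forward F (τ ++ [n₁, n₁]) x)) '' p with ht₁
  set t₂ := (fun x => backward F (truncate θ 2) (forward F (τ ++ [n₂]) x)) '' p with ht₂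
  have hw1 : weight a (τ ++ [n₁, n₁]) = e := by
    rw [weight_append, hwτ]
    simp [weight, hn₁]
    omega
  have hw1' : weightInit a (τ ++ [n₁, n₁]) = e - 1 := by
    rw [show τ ++ [n₁, n₁] = (τ ++ [n₁]) ++ [n₁] by simp, weightInit_snoc, weight_append, hwτ,
      weight_single, hn₁]
    omega
  have hw2 : weight a (τ ++ [n₂]) = e := by
    rw [weight_append, hwτ, weight_single, hM]
    omega
  have hw2' : weightInit a (τ ++ [n₂]) = e - 2 := by
    rw [weightInit_snoc, hwτ]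
  have hm1 : t₁ ∈ T₀ := hmem 2 (by norm_num) _ (by rw [hw1]) (by rw [hw1']; omega)
  have hm2 : t₂ ∈ T₀ := hmem 2 (by norm_num) _ (by rw [hw2]) (by rw [hw2']; omega)
  have hd1 : diam t₁ = 2 * δ := by
    rw [ht₁, diam_image h, hw1, hD, ← mul_assoc, inv_mul_cancel₀ (by positivity), one_mul]
  have hd2 : diam t₂ = 2 * δ := by
    rw [ht₂, diam_image h, hw2, hD, ← mul_assoc, inv_mul_cancel₀ (by positivity), one_mul]
  -- the supertile
  have hsup : ∀ n, F n '' p ⊆ p := fun n => by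
    conv_rhs => rw [h.union]
    exact subset_iUnion (fun n => F n '' p) n
  have hsub1 : t₁ ⊆ G '' p := by
    rw [ht₁, hcomp]
    apply image_mono
    have e1 : forward F [n₁, n₁] '' p = F n₁ '' (F n₁ '' p) := by
      rw [image_image]
      simp [forward]
    rw [e1]
    exact (image_mono (hsup n₁)).trans (hsup n₁)
  have hsub2 : t₂ ⊆ G '' p := by
    rw [ht₂, hcomp]
    apply image_mono
    have e1 : forward F [n₂] '' p = F n₂ '' p := by simp [forward]
    rw [e1]
    exact hsup n₂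
  have hdG : diam (G '' p) = 8 * δ := by
    rw [hG, diam_image h, hwτ, hD, ← mul_assoc]
    have e1 : (s ^ e)⁻¹ * s ^ (e - 2) = 4 := by
      rw [inv_mul_eq_iff_eq_mul₀ (by positivity)]
      obtain ⟨e', he'⟩ := Nat.exists_eq_add_of_le he2
      rw [he', Nat.add_sub_cancel_left, pow_add, hs2]
      ring
    rw [← he, e1]
    ring
  have hbd : Bornology.IsBounded (G '' p) := by
    have h1 : Bornology.IsBounded p := (isTiling_T₀.compact p hp).isBounded
    have h2 := (Dilation.lipschitz (forward F τ)).isBounded_image h1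
    have h3 := (Dilation.lipschitz (backward F (truncate θ 2))).isBounded_image h2
    rw [image_image] at h3
    exact h3
  -- both tiles are squares of side 2, hence they coincide
  have heq12 : t₁ = t₂ := by
    obtain ⟨i, j, hij⟩ := tile_of_diam hm1 hd1
    obtain ⟨i', j', hij'⟩ := tile_of_diam hm2 hd2
    have h1 : pt (16 * i) (16 * j) ∈ G '' p := by
      apply hsub1
      rw [hij]
      refine ⟨⟨?_, ?_⟩, ?_, ?_⟩ <;> simp
    have h2 : pt (16 * i') (16 * j') ∈ G '' p := by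
      apply hsub2
      rw [hij']
      refine ⟨⟨?_, ?_⟩, ?_, ?_⟩ <;> simp
    have h3 : dist (pt (16 * i) (16 * j)) (pt (16 * i') (16 * j')) ≤ 12 := by
      have h4 := Metric.dist_le_diam_of_mem hbd h1 h2
      rw [hdG] at h4
      have := δ_le
      linarith
    have h5 := (abs_coord_le_dist _ _ 0).trans h3
    have h6 := (abs_coord_le_dist _ _ 1).trans h3
    simp only [pt_zero, pt_one] at h5 h6
    have e1 : i = i' := by
      have h7 : |((16 * i - 16 * i' : ℤ) : ℝ)| ≤ 12 := by push_cast; exact h5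
      have h8 : |16 * i - 16 * i'| ≤ 12 := by exact_mod_cast h7
      rw [abs_le] at h8
      omega
    have e2 : j = j' := by
      have h7 : |((16 * j - 16 * j' : ℤ) : ℝ)| ≤ 12 := by push_cast; exact h6
      have h8 : |16 * j - 16 * j'| ≤ 12 := by exact_mod_cast h7
      rw [abs_le] at h8
      omega
    rw [hij, hij', e1, e2]
  rw [ht₁, ht₂, hcomp, hcomp] at heq12
  have heq3 := hGinj.image_injective heq12
  have hle : F n₂ '' p ⊆ F n₁ '' p := by
    have e1 : forward F [n₂] '' p = F n₂ '' p := by simp [forward]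
    have e2 : forward F [n₁, n₁] '' p = F n₁ '' (F n₁ '' p) := by
      rw [image_image]
      simp [forward]
    rw [← e1, ← heq3, e2]
    exact image_mono (hsup n₁)
  have hne : n₁ ≠ n₂ := by
    rintro rfl
    omega
  have hfr : F n₂ '' p ⊆ frontier (F n₂ '' p) := fun x hx =>
    (h.meet n₁ n₂ hne ⟨hle hx, hx⟩).2
  obtain ⟨-, -, -, -, -, ⟨x, hx⟩, -⟩ := h.polygon
  have hxi : F n₂ x ∈ interior (F n₂ '' p) := by
    have e1 : interior (F n₂ '' p) = F n₂ '' interior p :=
      ((F n₂).toHomeomorph.image_interior p).symm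
    rw [e1]
    exact ⟨x, hx, rfl⟩
  exact (hfr (interior_subset hxi)).2 hxi

end generating

/-- **Barnsley and Vince's question, negative answer.** There is a self-similar polygonal tiling
of the plane, by axis-parallel squares of sides `1` and `2` with integer corners, mapped by
`x ↦ 2 x` to unions of tiles and with no translational symmetry, which is not obtained by the
generating-pair method. -/
theorem result :
    ∃ T : Set (Set Plane), IsSelfSimilarPolygonalTiling T ∧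
      (∀ t ∈ T, ∃ (x y : ℤ) (r : ℝ), (r = 1 ∨ r = 2) ∧
        t = {z : Plane | ((x : ℝ) ≤ z 0 ∧ z 0 ≤ x + r) ∧ ((y : ℝ) ≤ z 1 ∧ z 1 ≤ y + r)}) ∧
      (∀ t ∈ T, ∃ S : Set (Set Plane), S ⊆ T ∧ (fun x : Plane => (2 : ℝ) • x) '' t = ⋃₀ S) ∧
      (∀ v : Plane, v ≠ 0 → (fun t : Set Plane => (fun x => v + x) '' t) '' T ≠ T) ∧
      ∀ (N : ℕ) (p : Set Plane) (F : Fin N → (Plane ≃ᵈ Plane)) (s : ℝ) (a : Fin N → ℕ),
        IsGeneratingPair p F s a → ∀ θ : ℕ → Fin N, T ≠ generatedTiling p F a θ := by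
  refine ⟨T₀, ⟨isTiling_T₀, finiteOrder_T₀, quasiperiodic_T₀, selfSimilar_T₀, ?_, ?_⟩, ?_, ?_,
    nonperiodic_T₀, fun N p F s a h θ => not_generated h θ⟩
  · rintro t ⟨m, n, rfl⟩
    obtain ⟨x, y, r, hr, h⟩ := tile_pos m n
    rw [h]
    exact isPolygon_sq hr
  · rintro t ⟨m, n, rfl⟩ t' ⟨m', n', rfl⟩
    obtain ⟨x, y, r, hr, h⟩ := tile_pos m n
    obtain ⟨x', y', r', hr', h'⟩ := tile_pos m' n'
    rw [h, h']
    exact similar_sq hr hr'
  · rintro t ⟨m, n, rfl⟩
    exact tile_eq_sq m n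
  · exact double_T₀

end Pool.Agent.Results.MP_4b3b27_co.SquareTiling
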